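import Pool.Agent.W57.SW.Group

set_option autoImplicit false

/-! # Classes of composite numbers which always have a small witness

Unconditionally, with at most finitely many exceptions, every composite `n` that has a prime factor `p` for
which `gcd (p - 1, n - 1)` is below `p ^ (1/2 - ε)`, or a prime factor larger than `n ^ (2/3 + ε)`, or that is
not squarefree, has a witness `1 < b ≤ 2 (log n) ^ 2`; and similarly for `2 (log n) ^ A`, `A ≥ 2`. -/

namespace Pool.Agent.Results.MP_0b15c0_nt.LargePrimeFactor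

open Real Pool.Agent.H379R2.W Pool.Agent.W57.SW

/-- `n` fails the strong test for the base `b`: writing `n - 1 = 2 ^ j * d` with `d` odd, neither
`b ^ d = 1` nor `b ^ (2 ^ i * d) = -1` for some `i < j`, modulo `n`. -/
def IsWitness (n b : ℕ) : Prop :=
  ∀ j d : ℕ, n - 1 = 2 ^ j * d → Odd d →
    (b : ZMod n) ^ d ≠ 1 ∧ ∀ i : ℕ, i < j → (b : ZMod n) ^ (2 ^ i * d) ≠ -1

/-- For every `A ≥ 2` and `ε > 0` there is `n₀` such that every composite `n ≥ n₀` of one of the following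
three kinds has a witness `1 < b ≤ 2 (log n) ^ A`:
(1) some prime factor `p` of `n` has `gcd (p - 1, n - 1) < p ^ (1 - 1/A - ε)`;
(2) some prime factor of `n` is larger than `n ^ (A/(2A-1) + ε)`;
(3) `n` is not squarefree. -/
theorem result (A ε : ℝ) (hA : 2 ≤ A) (hε : 0 < ε) : ∃ n₀ : ℕ, ∀ n : ℕ, n₀ ≤ n → 2 ≤ n → ¬ n.Prime →
    ((∃ p : ℕ, p.Prime ∧ p ∣ n ∧ (Nat.gcd (p - 1) (n - 1) : ℝ) < (p : ℝ) ^ (1 - 1 / A - ε)) ∨
      (∃ p : ℕ, p.Prime ∧ p ∣ n ∧ (n : ℝ) ^ (A / (2 * A - 1) + ε) < p) ∨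
      ¬ Squarefree n) →
    ∃ b : ℕ, 1 < b ∧ (b : ℝ) ≤ 2 * (Real.log n) ^ A ∧ IsWitness n b := by
  have hA0 : 0 < A := by linarith
  have hA1 : 1 / A ≤ 1 / 2 := one_div_le_one_div_of_le (by norm_num) hA
  have hA2 : 0 < 1 / A := by positivity
  obtain ⟨δ, hδ⟩ : ∃ δ : ℝ, δ = min ε (1 / 4) := ⟨_, rfl⟩
  have hδ0 : 0 < δ := by rw [hδ]; exact lt_min hε (by norm_num)
  have hδε : δ ≤ ε := by rw [hδ]; exact min_le_left _ _
  have hδ4 : δ ≤ 1 / 4 := by rw [hδ]; exact min_le_right _ _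
  obtain ⟨N1, hN1⟩ := bad_squarefree
  obtain ⟨N2, hN23, hN2⟩ := bd_gcd A δ hA hδ0
  refine ⟨max N1 N2, fun n hn hn2 hnp h => ?_⟩
  by_contra hcon
  have hn3 : 3 ≤ n := hN23.trans ((le_max_right _ _).trans hn)
  -- no witness: `n` is bad
  have hbad : Bd A n := by
    refine ⟨hn2, hnp, fun b hb1 hb2 => ?_⟩
    by_contra hp
    apply hcon
    refine ⟨b, hb1, hb2, fun j d hjd hd => ⟨fun e => ?_, fun i hi e => ?_⟩⟩
    · exact hp ⟨j, d, hjd, hd, Or.inl e⟩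
    · exact hp ⟨j, d, hjd, hd, Or.inr ⟨i, hi, e⟩⟩
  have hgcd : ∀ q m : ℕ, q.Prime → n = q * m → Nat.gcd (q - 1) (n - 1) = Nat.gcd (q - 1) (m - 1) := by
    intro q m hq hnm
    have hm : m ≠ 0 := by rintro rfl; omega
    have e1 : n - 1 = (m - 1) + (q - 1) * m := by
      rw [hnm]
      obtain ⟨q', rfl⟩ : ∃ q', q = q' + 1 := ⟨q - 1, by have := hq.two_le; omega⟩
      obtain ⟨m', rfl⟩ : ∃ m', m = m' + 1 := ⟨m - 1, by omega⟩
      simp only [Nat.add_sub_cancel]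
      rw [show (q' + 1) * (m' + 1) = m' + q' * (m' + 1) + 1 by ring]
      omega
    rw [e1, Nat.gcd_add_mul_left_right]
  have hnpos : (0 : ℝ) < n := by exact_mod_cast (by omega : 0 < n)
  have hn1 : (1 : ℝ) < n := by exact_mod_cast (by omega : 1 < n)
  rcases h with ⟨p, hp, hpn, hlt⟩ | ⟨p, hp, hpn, hlt⟩ | h
  · obtain ⟨m, hm⟩ := hpn
    obtain ⟨g1, -⟩ := hN2 n ((le_max_right _ _).trans hn) hbad p m hp hm
    rw [← hgcd p m hp hm] at g1
    have hp1 : (1 : ℝ) ≤ p := by exact_mod_cast hp.one_lt.le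
    have h2 : (p : ℝ) ^ (1 - 1 / A - ε) ≤ (p : ℝ) ^ (1 - 1 / A - δ) :=
      rpow_le_rpow_of_exponent_le hp1 (by linarith)
    linarith
  · obtain ⟨m, hm⟩ := hpn
    obtain ⟨g1, g2⟩ := hN2 n ((le_max_right _ _).trans hn) hbad p m hp hm
    have hp0 : (0 : ℝ) < p := by exact_mod_cast hp.pos
    have hm0 : (0 : ℝ) < m := by exact_mod_cast (by omega : 0 < m)
    -- `p ^ (1 - 1/A - δ) ≤ m - 1 < m = n / p`
    have h1 : (Nat.gcd (p - 1) (m - 1) : ℝ) ≤ m := by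
      have : Nat.gcd (p - 1) (m - 1) ≤ m := (Nat.gcd_le_right _ (by omega)).trans (Nat.sub_le _ _)
      exact_mod_cast this
    have h2 : (p : ℝ) ^ (1 - 1 / A - δ) ≤ m := g1.trans h1
    have h3 : (p : ℝ) ^ (2 - 1 / A - δ) ≤ n := by
      have e : (p : ℝ) ^ (2 - 1 / A - δ) = p * (p : ℝ) ^ (1 - 1 / A - δ) := by
        nth_rewrite 2 [← rpow_one (p : ℝ)]
        rw [← rpow_add hp0]; congr 1; ring
      rw [e, hm]
      push_cast
      exact mul_le_mul_of_nonneg_left h2 hp0.le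
    -- but `p > n ^ (A/(2A-1) + ε)`
    have h4 : 0 < 2 - 1 / A - δ := by linarith
    have h5 : ((n : ℝ) ^ (A / (2 * A - 1) + ε)) ^ (2 - 1 / A - δ) < (p : ℝ) ^ (2 - 1 / A - δ) :=
      rpow_lt_rpow (by positivity) hlt h4
    rw [← rpow_mul hnpos.le] at h5
    have h6 : (1 : ℝ) ≤ (A / (2 * A - 1) + ε) * (2 - 1 / A - δ) := by
      have hB : 0 < 2 * A - 1 := by linarith
      have e1 : A / (2 * A - 1) * (2 - 1 / A) = 1 := by
        rw [div_mul_eq_mul_div, div_eq_one_iff_eq hB.ne']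
        field_simp
      have e2 : A / (2 * A - 1) ≤ 2 / 3 := by
        rw [div_le_div_iff₀ hB (by norm_num)]; linarith
      have e3 : A / (2 * A - 1) * δ ≤ 2 / 3 * ε :=
        mul_le_mul e2 hδε hδ0.le (by norm_num)
      have e4 : ε * (2 / 3) ≤ ε * (2 - 1 / A - δ) := by
        apply mul_le_mul_of_nonneg_left _ hε.le
        linarith
      nlinarith
    have h7 : (n : ℝ) ≤ (n : ℝ) ^ ((A / (2 * A - 1) + ε) * (2 - 1 / A - δ)) := by
      calc (n : ℝ) = (n : ℝ) ^ (1 : ℝ) := (rpow_one _).symm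
        _ ≤ _ := rpow_le_rpow_of_exponent_le hn1.le h6
    linarith
  · exact h (hN1 n ((le_max_left _ _).trans hn) (hbad.bad hA hn3))

end Pool.Agent.Results.MP_0b15c0_nt.LargePrimeFactor
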