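import Pool.Agent.TH869.EVF.WitG

set_option autoImplicit false

/-!
# Witnesses for the strong test in polynomial families

Let `f₁`, `f₂` be integer polynomials such that none of `f₁`, `f₂`, `f₁ f₂` is a constant times a
square.  For all `n ≤ N` outside a set of at most `C N ^ (1 - c)` integers the following holds: if
`p = f₁ n` and `q = f₂ n` are different primes, then every multiple `m` of `p q` has a prime witness
`b ≤ 2 (log p) ^ A` for the strong test, and almost half of the primes `b ≤ y` are witnesses for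
`m`, for every `y` between `(log p) ^ A` and `N ^ c`.  Here `A > 1` is arbitrary.
-/

namespace Pool.Agent.Results.MP_0b15c0_nt.PolynomialFamilies

open Polynomial

/-- `n` fails the strong test for the base `b`: writing `n - 1 = 2 ^ j * d` with `d` odd, neither
`b ^ d = 1` nor `b ^ (2 ^ i * d) = -1` for some `i < j`, modulo `n`. -/
def IsWitness (n b : ℕ) : Prop :=
  ∀ j d : ℕ, n - 1 = 2 ^ j * d → Odd d →
    (b : ZMod n) ^ d ≠ 1 ∧ ∀ i : ℕ, i < j → (b : ZMod n) ^ (2 ^ i * d) ≠ -1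

/-- `f` is not a rational constant times the square of a rational polynomial. -/
def NotConstMulSq (f : ℤ[X]) : Prop :=
  ∀ (c : ℚ) (g : ℚ[X]), f.map (Int.castRingHom ℚ) ≠ C c * g ^ 2

theorem result (f₁ f₂ : ℤ[X]) (hf₁ : NotConstMulSq f₁) (hf₂ : NotConstMulSq f₂)
    (hf₁₂ : NotConstMulSq (f₁ * f₂)) (A : ℝ) (hA : 1 < A) (ε : ℝ) (hε : 0 < ε) :
    ∃ c C : ℝ, 0 < c ∧ 0 < C ∧ ∀ N : ℕ, 1 ≤ N → ∃ E : Finset ℕ,
      (E.card : ℝ) ≤ C * (N : ℝ) ^ (1 - c) ∧ ∀ n : ℕ, 1 ≤ n → n ≤ N → n ∉ E →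
      ∀ p q : ℕ, p.Prime → q.Prime → p ≠ q → f₁.eval (n : ℤ) = p → f₂.eval (n : ℤ) = q →
        ∀ m : ℕ, p * q ∣ m →
        (∀ y : ℕ, Real.log p ^ A ≤ y → (y : ℝ) ≤ (N : ℝ) ^ c →
          (1 / 2 - ε) * (Nat.primeCounting y : ℝ) ≤
            (Set.ncard {b : ℕ | b.Prime ∧ b ≤ y ∧ IsWitness m b} : ℝ)) ∧
        ∃ b : ℕ, b.Prime ∧ (b : ℝ) ≤ 2 * Real.log p ^ A ∧ IsWitness m b :=
  Pool.Agent.TH869.EVF.wit_family f₁ f₂ hf₁ hf₂ hf₁₂ A hA ε hε

end Pool.Agent.Results.MP_0b15c0_nt.PolynomialFamilies
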