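import Mathlib
import Pool.Agent.TH725.TS.GM

/-!
# The strong pseudoprimality test: the proportion of the small primes that are witnesses

Let `A ≥ 2` and let `j ≥ 1` be an integer. Unconditionally, for all but `O(x^(max(1-1/j, 1/A)+ε))` of the
composite numbers `n ≤ x` at least the proportion `1 - 2^(-j) - δ` of the primes up to `2 (log n)^A` are witnesses.
In the range `A = 2` of the question: all but `O(x^(1/2+ε))` composite numbers have at least the proportion
`3/4 - δ` of witnesses among these primes (`j = 2`), and for every `δ > 0` there is `c > 0` such that all but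
`O(x^(1-c))` of them have at least the proportion `1 - δ`. More generally the primes up to `2 (log x)^A` may be
replaced by any of their subsets `B` with `(log x)^θ` elements, `θ ≥ 2` (a factor `(log log x)^(3/2)` may be lost),
the exponent being `max(1-1/j, 1-(θ-1)/A)+ε`.

Proof. Let `P` be the set of the elements of `B` for which `n` passes, `|P| ≥ (2^(-j)+δ) |B|`. Write `n = d² c k`
with `k` odd and squarefree and `c` in `{1, 2}`. By the rule for the symbols of the elements of `P` modulo the
prime divisors of `k`, for any `j+1` coprime divisors of `k` some product `a > 1` of them has a biased symbol: the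
sum of `(ℓ/a)` over the elements `ℓ` of `B` is at least `δ |B|` (average over the products on which the symbol of
every element of `P` is `1`). Greedily, `k` is a product of such `a`, each larger than a power of `log x`, of a
number at most a power of `log x` and of at most `j` primes. Heath-Brown's large sieve, applied with elementary
symmetric functions of the symbols, shows that there are few such `a`. For a prime `q` dividing `n` put
`κ = (q-1)/gcd(q-1,n-1)`: the elements of `P` lie in a subgroup of index `κ` modulo `q`. A larger sieve bounds the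
number of primes with large `κ`; and given all other factors of `n`, there are at most `κ` possible `q`, up to
`x^ε`. Taking for `q` the prime with the least `κ²/q` one gets the exponent `1-1/j`.
-/

set_option autoImplicit false

namespace Pool.Agent.Results.MP_0b15c0_nt.ProportionOfPrimeWitnesses

/-- `n` fails the strong test for the base `b`: writing `n - 1 = 2 ^ j * d` with `d` odd, neither
`b ^ d = 1` nor `b ^ (2 ^ i * d) = -1` for some `i < j`, modulo `n`. -/
def IsWitness (n b : ℕ) : Prop :=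
  ∀ j d : ℕ, n - 1 = 2 ^ j * d → Odd d →
    (b : ZMod n) ^ d ≠ 1 ∧ ∀ i : ℕ, i < j → (b : ZMod n) ^ (2 ^ i * d) ≠ -1

/-- the primes at most `y` -/
def PrimesUpTo (y : ℝ) : Set ℕ := {p : ℕ | p.Prime ∧ (p : ℝ) ≤ y}

/-- the composite `n ≤ x` for which fewer than `κ |B n|` elements of the set `B n` are witnesses -/
def Exceptions (κ : ℝ) (B : ℕ → Set ℕ) (x : ℕ) : Set ℕ :=
  {n : ℕ | n ≤ x ∧ 2 ≤ n ∧ ¬ n.Prime ∧
    (({b : ℕ | b ∈ B n ∧ IsWitness n b}.ncard : ℕ) : ℝ) < κ * ((B n).ncard : ℝ)}

/-- Let `j ≥ 1` be an integer, `A ≥ 2`, `δ > 0` and `ε > 0`. For some `K` and all `x ≥ 1`, for all but at most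
`K x^(max(1-1/j, 1/A)+ε)` composite `n ≤ x` at least the proportion `1 - 1/2^j - δ` of the primes up to
`2 (log n)^A` are witnesses; and if `2 ≤ θ ≤ A`, then for some `K`, for all `x ≥ 3` and all sets `B` of primes at
most `2 (log x)^A` with `(log x)^θ ≤ |B| (log log x)^(3/2)`, for all but at most
`K x^(max(1-1/j, 1-(θ-1)/A)+ε)` composite `n ≤ x` at least `(1 - 1/2^j - δ) |B|` elements of `B` are witnesses. -/
theorem result (j : ℕ) (hj : 1 ≤ j) (A δ ε : ℝ) (hA : 2 ≤ A) (hδ : 0 < δ) (hε : 0 < ε) :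
    (∃ K : ℝ, ∀ x : ℕ, 1 ≤ x →
      (Exceptions (1 - 1 / 2 ^ j - δ) (fun n => PrimesUpTo (2 * (Real.log n) ^ A)) x).Finite ∧
      ((Exceptions (1 - 1 / 2 ^ j - δ) (fun n => PrimesUpTo (2 * (Real.log n) ^ A)) x).ncard : ℝ) ≤
        K * (x : ℝ) ^ (max (1 - 1 / (j : ℝ)) (1 / A) + ε)) ∧
    (∀ θ : ℝ, 2 ≤ θ → θ ≤ A → ∃ K : ℝ, ∀ x : ℕ, 3 ≤ x → ∀ B : Finset ℕ, (∀ p ∈ B, p.Prime) →
      (∀ p ∈ B, (p : ℝ) ≤ 2 * (Real.log x) ^ A) →
      (Real.log x) ^ θ ≤ (B.card : ℝ) * (Real.log (Real.log x)) ^ (3 / 2 : ℝ) →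
      (Exceptions (1 - 1 / 2 ^ j - δ) (fun _ => (B : Set ℕ)) x).Finite ∧
      ((Exceptions (1 - 1 / 2 ^ j - δ) (fun _ => (B : Set ℕ)) x).ncard : ℝ) ≤
        K * (x : ℝ) ^ (max (1 - 1 / (j : ℝ)) (1 - (θ - 1) / A) + ε)) := by
  have hA0 : 0 < A := by linarith
  have h2j : (1 : ℝ) / 2 ^ j ≤ 1 / 2 := by
    apply one_div_le_one_div_of_le (by norm_num)
    calc (2 : ℝ) = 2 ^ 1 := (pow_one 2).symm
      _ ≤ 2 ^ j := pow_le_pow_right₀ (by norm_num) hj
  have h2j0 : (0 : ℝ) < 1 / 2 ^ j := by positivity
  constructor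
  · have e : 1 - (A - 1) / A = 1 / A := by field_simp; ring
    have hm0 : 0 < min δ (1 / 4) := lt_min hδ (by norm_num)
    have hm1 := min_le_left δ (1 / 4)
    have hm2 := min_le_right δ (1 / 4)
    have H := TH725.TS.G.countR_J j hj A A (1 / 2 ^ j + min δ (1 / 4) / 2) ε hA le_rfl
      (by linarith) hε
    rw [e] at H
    have hβ : 0 < max (1 - 1 / (j : ℝ)) (1 / A) + ε := by
      have h1 := le_max_right (1 - 1 / (j : ℝ)) (1 / A)
      have h2 : 0 < 1 / A := by positivity
      linarith
    exact TH725.TS.exc_primes A (1 - 1 / 2 ^ j - δ) (1 / 2 ^ j + min δ (1 / 4) / 2)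
      (max (1 - 1 / (j : ℝ)) (1 / A) + ε) hA (by linarith) (by linarith) (by linarith) hβ H
  · intro θ hθ hθA
    have H := TH725.TS.G.countR_J j hj A θ (1 - (1 - 1 / 2 ^ j - δ)) ε hθ hθA (by linarith) hε
    exact TH725.TS.exc_fixed A θ (1 - 1 / 2 ^ j - δ) _ H

end Pool.Agent.Results.MP_0b15c0_nt.ProportionOfPrimeWitnesses
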