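import Pool.Agent.TH55.SO.Fin

/-!
# The strong pseudoprimality test when `n - 1` is nearly a power of two

Unconditionally, every sufficiently large composite `n` for which the odd part of `n - 1` is at most a fixed power of
`log n` has a witness `1 < b ≤ 2 (log n)^2`. (So for example all but finitely many of the composite numbers
`k 2^a + 1`, `k` fixed, and all but finitely many composite Cullen numbers `a 2^a + 1`, have a witness in the range of
the question.)

Proof. Write `n - 1 = 2^a m` with `m` odd, and suppose that `n` passes the test for all `b` up to `2 (log n)^2`. Let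
`2^t` be the largest power of two dividing `p - 1` for all primes `p` dividing `n`. As the order of `b` modulo `p` is
divisible by the same power of two for all these `p`, we get `b^(2^t m) = 1` modulo `n`. All products of such `b` are
solutions of this equation modulo `p`, and hence `2^t gcd (p - 1, m)` is at least the number of smooth numbers up to
`p`, which is larger than `√p exp (log p / (4 log log p))`, and larger than `p^(1-δ)` if `p` is small. On the other hand
`n - 1` is congruent to the sum `σ` of the numbers `p - 1` modulo `4^t`, and therefore `2^a ≤ σ` or `4^t ≤ σ`; here `σ` is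
less than `P log n`, where `P` is the largest prime factor. If `m` is small, then `P` is at most a power of `log n`, and
each prime factor is determined by the divisor `gcd (p - 1, m)` of `m` and the small number
`(p - 1) / (2^t gcd (p - 1, m))`, so that `n` has too few prime factors.
-/

set_option autoImplicit false

namespace Pool.Agent.Results.MP_0b15c0_nt.SmallOddPart

open Real

/-- `n` fails the strong test for the base `b`: writing `n - 1 = 2 ^ j * d` with `d` odd, neither
`b ^ d = 1` nor `b ^ (2 ^ i * d) = -1` for some `i < j`, modulo `n`. -/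
def IsWitness (n b : ℕ) : Prop :=
  ∀ j d : ℕ, n - 1 = 2 ^ j * d → Odd d →
    (b : ZMod n) ^ d ≠ 1 ∧ ∀ i : ℕ, i < j → (b : ZMod n) ^ (2 ^ i * d) ≠ -1

/-- `P` is the largest prime factor of `n` -/
def IsLargest (P n : ℕ) : Prop := P.Prime ∧ P ∣ n ∧ ∀ q : ℕ, q.Prime → q ∣ n → q ≤ P

/-- Let `A ≥ 2` (`A = 2` is the range of the question), `C` real and `ε > 0`. Every sufficiently large composite `n`
with `n - 1 = 2 ^ a m`, `m` odd, and largest prime factor `P`, has a witness `1 < b ≤ 2 (log n)^A` in each of the
following cases: (1) `m ≤ (log n)^C`; (2) `m² log n` is at most the maximum of `exp (log P / (2 log log P))` and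
`P^(1 - 2/A - ε)`; (3) `P log n ≤ 2 ^ a` and `gcd (P - 1, m)² log n` is at most this maximum; (4) `P log n ≤ 2 ^ a`,
`gcd (P - 1, m) ≤ (log n)^C` and `m` has at most `(log n)^(1 - ε)` divisors. -/
theorem result (A C ε : ℝ) (hA : 2 ≤ A) (hε : 0 < ε) :
    ∃ n₀ : ℕ, ∀ n : ℕ, n₀ ≤ n → 2 ≤ n → ¬ n.Prime →
      ∀ a m P : ℕ, n - 1 = 2 ^ a * m → Odd m → IsLargest P n →
      ((m : ℝ) ≤ (log n) ^ C ∨
        (m : ℝ) ^ 2 * log n ≤
          max (exp (log P / (2 * log (log P)))) ((P : ℝ) ^ (1 - 2 / A - ε)) ∨
        ((P : ℝ) * log n ≤ 2 ^ a ∧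
          ((Nat.gcd (P - 1) m : ℝ) ^ 2 * log n ≤
              max (exp (log P / (2 * log (log P)))) ((P : ℝ) ^ (1 - 2 / A - ε)) ∨
            ((Nat.gcd (P - 1) m : ℝ) ≤ (log n) ^ C ∧
              (m.divisors.card : ℝ) ≤ (log n) ^ (1 - ε))))) →
      ∃ b : ℕ, 1 < b ∧ (b : ℝ) ≤ 2 * (log n) ^ A ∧ IsWitness n b := by
  have hW : ∀ n b : ℕ, ¬ IsWitness n b → H379R2.W.Passes n b := by
    intro n b h
    by_contra hp
    exact h fun j d hjd hd => ⟨fun e => hp ⟨j, d, hjd, hd, Or.inl e⟩,
      fun i hi e => hp ⟨j, d, hjd, hd, Or.inr ⟨i, hi, e⟩⟩⟩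
  obtain ⟨N, hN⟩ := TH55.SO.finalU A C ε hA hε
  refine ⟨N, fun n hn hn2 hnp a m P hnm hm hP h => ?_⟩
  by_contra hcon
  push Not at hcon
  exact hN n hn ⟨hn2, hnp, fun b hb1 hb2 => hW n b (hcon b hb1 hb2)⟩ a m P hnm hm hP h

end Pool.Agent.Results.MP_0b15c0_nt.SmallOddPart
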